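import Pool.Agent.H49.SDD

set_option autoImplicit false

namespace Pool.Agent.Results.MP_3de96c_nt.Counterexample

open H49.SDD

/-- Q1 is false for `X = (ℙ¹)³` over `ℚ`, `f(x, y, z) = (x², y², z³)` and every `d ≥ 1`: the
curves `Y_ζ = {(t, ζ t, 0)}` are periodic of unbounded period, have small dynamical degree, and
all contain the rational point `(0, 0, 0)`. -/
theorem result : Function.Surjective f ∧ 1 < d1 Set.univ 3 f ∧
    ∀ N : ℕ, ∃ (ζ : K) (s : ℕ), ζ ≠ 0 ∧ N < s ∧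
      IsLeast {m : ℕ | 0 < m ∧ f^[m] '' Y ζ = Y ζ} s ∧
      d1 (Y ζ) 1 f^[s] < d1 Set.univ 3 f^[s] ∧
      ((((0 : K) : OnePoint K), ((0 : K) : OnePoint K), ((0 : K) : OnePoint K)) : X) ∈ Y ζ :=
  main

end Pool.Agent.Results.MP_3de96c_nt.Counterexample
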